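import Pool.Agent.Q148.LadderIdx

set_option autoImplicit false

namespace Pool.Agent.Results.MP_1d7995_gt.OmegaBase

open Pool.Agent.Q148.Ladder

/-- There is a Hausdorff abelian topological group with an `ω^ω`-base, having a base of
neighbourhoods of zero consisting of open subgroups, without a suitable set. -/
theorem result :
    ∃ (G : Type) (_ : AddCommGroup G) (_ : TopologicalSpace G),
      IsTopologicalAddGroup G ∧ T2Space G ∧ HasOmegaBase G ∧
      (∀ V ∈ nhds (0 : G), ∃ U : AddSubgroup G, IsOpen (U : Set G) ∧ (U : Set G) ⊆ V) ∧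
      ¬ ∃ S : Set G, IsSuitable S := by
  refine ⟨LO Wb, inferInstance, inferInstance, inferInstance, inferInstance, omegaBase_LO, ?_,
    fun ⟨S, hS⟩ => LO.no_suitable regIdx_Wb S hS⟩
  intro V hV
  obtain ⟨a, _, ha⟩ := (LO.basis_zero regIdx_Wb).mem_iff.1 hV
  let U : AddSubgroup (LO Wb) :=
    { carrier := {x | ∀ i < a, LO.val x i = 0}
      zero_mem' := fun i _ => by rw [map_zero]; rfl
      add_mem' := fun {x y} hx hy i hi => by rw [map_add, Pi.add_apply, hx i hi, hy i hi, add_zero]
      neg_mem' := fun {x} hx i hi => by rw [map_neg, Pi.neg_apply, hx i hi, neg_zero] }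
  refine ⟨U, ?_, ha⟩
  have h1 := LO.isOpen_coset regIdx_Wb (0 : LO Wb) a
  rw [map_zero] at h1
  exact h1

end Pool.Agent.Results.MP_1d7995_gt.OmegaBase
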